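import Pool.Agent.Q23.LD.Val

/-!
# The sets `E(5)`, `E(7)`, `E(9)`, `E(11)`

The values of the problem are correct for `m = 5` but not for `m = 7, 9, 11`: the primes `2477`, `1201`,
`1597` are missing in `E(7)`, `E(9)`, `E(11)`.  We determine the four sets.
-/

set_option autoImplicit false

namespace Pool.Agent.Results.MP_63ede0_nt.ExplicitValues

/-- The determinant `D_p^(m)` of the matrix with the entries `(j^2 - k^2)^m (j^2 - k^2 / p)`,
`1 ≤ j, k ≤ (p - 1) / 2`. -/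
def D (m p : ℕ) [Fact p.Prime] : ℤ :=
  Matrix.det (Matrix.of fun j k : Fin ((p - 1) / 2) =>
    ((((j : ℕ) : ℤ) + 1) ^ 2 - (((k : ℕ) : ℤ) + 1) ^ 2) ^ m *
      legendreSym p ((((j : ℕ) : ℤ) + 1) ^ 2 - (((k : ℕ) : ℤ) + 1) ^ 2))

/-- The set `E(m)` of the primes `p ≡ 1` modulo `4` which divide `D_p^(m)`. -/
def E (m : ℕ) : Set ℕ := {p | ∃ _ : Fact p.Prime, p % 4 = 1 ∧ (p : ℤ) ∣ D m p}

/-- **Main result.** -/
theorem result :
    ¬ (E 5 = {29} ∧ E 7 = {13, 53} ∧ E 9 = {13, 17, 29} ∧ E 11 = {17, 29}) ∧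
    E 5 = {29} ∧ E 7 = {13, 53, 2477} ∧ E 9 = {13, 17, 29, 1201} ∧ E 11 = {17, 29, 1597} := by
  have h5 : E 5 = {29} := by
    ext p; exact Pool.Agent.Q23.LD.val5 p
  have h7 : E 7 = {13, 53, 2477} := by
    ext p; exact Pool.Agent.Q23.LD.val7 p
  have h9 : E 9 = {13, 17, 29, 1201} := by
    ext p; exact Pool.Agent.Q23.LD.val9 p
  have h11 : E 11 = {17, 29, 1597} := by
    ext p; exact Pool.Agent.Q23.LD.val11 p
  refine ⟨?_, h5, h7, h9, h11⟩
  rintro ⟨_, h, _, _⟩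
  have h1 : (2477 : ℕ) ∈ E 7 := by rw [h7]; simp
  rw [h] at h1
  simp at h1

end Pool.Agent.Results.MP_63ede0_nt.ExplicitValues
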