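import Pool.Agent.Q23.LD.Fin

/-!
# The set `E(m)` of the primes dividing the Legendre symbol determinant is finite

Modulo `p` the entries are `(x_j - x_k)^(m + n)`, where `n = (p - 1) / 2` and the `x_j = j^2` are the
`n`-th roots of unity modulo `p`.  By the binomial theorem the determinant is, up to sign and the square
of a Vandermonde determinant, the product of the folded binomial coefficients
`c_b = ∑ (-1)^i binom(n + m, i)` (`i ≡ b` modulo `n`).  For `n > m` one has
`c_b = ± (binom(n + m, b) + binom(n + m, m - b))` for `b ≤ m`, and `2^m m! c_b` is modulo `p` a positive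
integer which depends only on `m` and `b`; the other `c_b` are prime to `p`.
-/

set_option autoImplicit false

namespace Pool.Agent.Results.MP_63ede0_nt.FinitelyManyPrimes

/-- The determinant `D_p^(m)` of the matrix with the entries `(j^2 - k^2)^m (j^2 - k^2 / p)`,
`1 ≤ j, k ≤ (p - 1) / 2`. -/
def D (m p : ℕ) [Fact p.Prime] : ℤ :=
  Matrix.det (Matrix.of fun j k : Fin ((p - 1) / 2) =>
    ((((j : ℕ) : ℤ) + 1) ^ 2 - (((k : ℕ) : ℤ) + 1) ^ 2) ^ m *
      legendreSym p ((((j : ℕ) : ℤ) + 1) ^ 2 - (((k : ℕ) : ℤ) + 1) ^ 2))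

/-- The set `E(m)` of the primes `p ≡ 1` modulo `4` which divide `D_p^(m)`. -/
def E (m : ℕ) : Set ℕ := {p | ∃ _ : Fact p.Prime, p % 4 = 1 ∧ (p : ℤ) ∣ D m p}

/-- **Main result.** -/
theorem result : ∀ m : ℕ, 0 < m → Odd m → (E m).Finite := by
  intro m _ _
  apply (Set.finite_Iic (2 * m + 1 + ∑ b ∈ Finset.range (m + 1),
    (Pool.Agent.Q23.LD.BB m b + Pool.Agent.Q23.LD.BB m (m - b)))).subset
  rintro p ⟨_, h4, h⟩
  exact Pool.Agent.Q23.LD.bound h4 h

end Pool.Agent.Results.MP_63ede0_nt.FinitelyManyPrimes
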